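import Mathlib
import Pool.Agent.Y692.QS.Rec

set_option autoImplicit false

/-! # Nontriviality of the cubic and quadratic symbols on the Eisenstein integers -/

namespace Pool.Agent.R361.SX

open Finset Polynomial
open Pool.Agent.Y692.QS

section

variable (q : ℕ) [hq : Fact q.Prime]

lemma rq_t (hq3 : q ≠ 3) (t : ℕ) : rq q hq3 ⟨t, 1⟩ = t + zq q hq3 := by
  unfold rq
  rw [hom_apply]
  push_cast
  ring

lemma rq_star_t (hq3 : q ≠ 3) (t : ℕ) : rq q hq3 (star ⟨t, 1⟩) = t - 1 - zq q hq3 := by
  unfold rq
  rw [hom_apply, star_re, star_im]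
  push_cast
  ring

lemma nr_t (hq3 : q ≠ 3) (t : ℕ) : rq q hq3 ((nr ⟨t, 1⟩ : ℤ) : Ei) =
    (t + zq q hq3) * (t - 1 - zq q hq3) := by
  rw [← mul_star, map_mul, rq_t, rq_star_t]

lemma dvd_nr (hq3 : q ≠ 3) (α : Ei) : (q : ℤ) ∣ nr α ↔ rq q hq3 ((nr α : ℤ) : Ei) = 0 := by
  rw [rq_int, CharP.intCast_eq_zero_iff (Kq q) q]

lemma cast_inj_range : Set.InjOn (fun t : ℕ => (t : Kq q)) (range q) := by
  intro a ha b hb hab
  rw [mem_coe, mem_range] at ha hb
  simp only at hab
  have := (CharP.natCast_eq_natCast (Kq q) q).mp hab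
  exact Nat.ModEq.eq_of_lt_of_lt this ha hb

lemma poly_zero (P : (Kq q)[X]) (S : Finset ℕ) (hS : S ⊆ range q)
    (h : ∀ t ∈ S, P.eval (t : Kq q) = 0) (hd : P.natDegree < #S) : P = 0 := by
  classical
  apply Polynomial.eq_zero_of_natDegree_lt_card_of_eval_eq_zero' P (S.image (fun t : ℕ => (t : Kq q)))
  · intro i hi
    rw [mem_image] at hi
    obtain ⟨t, ht, rfl⟩ := hi
    exact h t ht
  · rw [card_image_of_injOn ((cast_inj_range q).mono (by exact_mod_cast hS))]
    exact hd

theorem KK_nontriv (hq3 : q ≠ 3) (hq2 : q ≠ 2) : ∃ α : Ei, ¬ (q : ℤ) ∣ nr α ∧ KK q hq3 α ≠ 1 := by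
  classical
  by_contra hcon
  push Not at hcon
  have hq1 := hq.out.two_le
  have h3 := three_ne_k q hq3
  set z := zq q hq3 with hz
  have hzz : z * z = -1 - z := zq_sq q hq3
  rcases q_mod q hq3 with hm | hm
  · -- q = 1 mod 3
    set m := (q - 1) / 3 with hmd
    set Bd : Finset ℕ := (range q).filter (fun t : ℕ => ((t : Kq q) + z) * (t - 1 - z) = 0) with hBd
    set S : Finset ℕ := range q \ Bd with hS
    have hcard : q - 2 ≤ #S := by
      have h1 : #Bd ≤ 2 := by
        have h2 : Bd.image (fun t : ℕ => (t : Kq q)) ⊆ {-z, 1 + z} := by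
          intro x hx
          rw [mem_image] at hx
          obtain ⟨t, ht, rfl⟩ := hx
          rw [hBd, mem_filter] at ht
          have h4 := ht.2
          rw [mem_insert, mem_singleton]
          rcases mul_eq_zero.mp h4 with h5 | h5
          · left; linear_combination h5
          · right; linear_combination h5
        rw [← card_image_of_injOn ((cast_inj_range q).mono (by
          intro t ht
          rw [mem_coe] at ht ⊢
          exact (mem_filter.mp ht).1))]
        exact (card_le_card h2).trans card_le_two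
      have h5 : #(range q) - #Bd ≤ #S := by
        rw [hS]
        convert le_card_sdiff Bd (range q)
      rw [card_range] at h5
      omega
    set P : (Kq q)[X] := (X + C z) ^ m - (X + C (-1 - z)) ^ m with hP
    have hP0 : P = 0 := by
      apply poly_zero q P S sdiff_subset
      · intro t ht
        rw [hS, mem_sdiff, hBd, mem_filter] at ht
        have ht2 : ((t : Kq q) + z) * (t - 1 - z) ≠ 0 := fun h => ht.2 ⟨ht.1, h⟩
        have ha : (t : Kq q) + z ≠ 0 := left_ne_zero_of_mul ht2
        have hb : (t : Kq q) - 1 - z ≠ 0 := right_ne_zero_of_mul ht2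
        have hnd : ¬ (q : ℤ) ∣ nr (⟨t, 1⟩ : Ei) := by
          rw [dvd_nr q hq3, nr_t]; exact ht2
        have h1 := hcon _ hnd
        unfold KK at h1
        rw [if_pos hm, map_mul, nr_t, rq_t] at h1
        have ha1 : ((t : Kq q) + z) ^ (3 * m) = 1 := by
          apply mul_right_cancel₀ ha
          have := rq_frob_one q hq3 hm ⟨t, 1⟩
          rw [rq_t] at this
          rw [← pow_succ, one_mul]
          have e : 3 * m + 1 = q := by omega
          rw [e]; exact this
        have hb1 : ((t : Kq q) - 1 - z) ^ (3 * m) = 1 := by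
          apply mul_right_cancel₀ hb
          have := rq_frob_one q hq3 hm (star ⟨t, 1⟩)
          rw [rq_star_t] at this
          rw [← pow_succ, one_mul]
          have e : 3 * m + 1 = q := by omega
          rw [e]; exact this
        rw [hP, eval_sub, eval_pow, eval_pow, eval_add, eval_add, eval_X, eval_C, eval_C]
        have e1 : (t : Kq q) + (-1 - z) = t - 1 - z := by ring
        rw [e1, sub_eq_zero]
        have h2 : ((t : Kq q) + z) ^ m * ((t : Kq q) - 1 - z) ^ (2 * m) = 1 := by
          have e2 : ∀ a b : Kq q, (a * b * a) ^ (2 * m) = a ^ (3 * m) * (a ^ m * b ^ (2 * m)) := by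
            intro a b
            rw [mul_pow, mul_pow]
            ring
          rw [e2, ha1, one_mul] at h1
          exact h1
        calc ((t : Kq q) + z) ^ m = ((t : Kq q) + z) ^ m * ((t : Kq q) - 1 - z) ^ (3 * m) := by
              rw [hb1, mul_one]
          _ = (((t : Kq q) + z) ^ m * ((t : Kq q) - 1 - z) ^ (2 * m)) *
              ((t : Kq q) - 1 - z) ^ m := by ring
          _ = _ := by rw [h2, one_mul]
      · have h1 : P.natDegree ≤ m := by
          refine (natDegree_sub_le _ _).trans (max_le ?_ ?_)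
          · refine natDegree_pow_le.trans ?_
            rw [natDegree_X_add_C, mul_one]
          · refine natDegree_pow_le.trans ?_
            rw [natDegree_X_add_C, mul_one]
        omega
    have h1 : P.eval (-z) = 0 := by rw [hP0, eval_zero]
    rw [hP, eval_sub, eval_pow, eval_pow, eval_add, eval_add, eval_X, eval_C, eval_C,
      neg_add_cancel, zero_pow (by omega), zero_sub, neg_eq_zero] at h1
    have h2 : -z + (-1 - z) = 0 := pow_eq_zero_iff (by omega) |>.mp h1
    apply h3
    linear_combination 4 * hzz + (2 * z + 1) * h2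
  · -- q = 2 mod 3
    obtain ⟨k, hk⟩ : ∃ k, q + 1 = 3 * (k + 1) := ⟨(q + 1) / 3 - 1, by omega⟩
    have hk1 : (q + 1) / 3 = k + 1 := by omega
    have ha : ∀ t : ℕ, (t : Kq q) + z ≠ 0 := by
      intro t h
      have h4 := rq_frob_two q hq3 hm ⟨t, 1⟩
      rw [rq_t, rq_star_t, ← hz, h, zero_pow hq.out.ne_zero] at h4
      have hd : 1 + 2 * z = 0 := by linear_combination h + h4
      apply h3
      linear_combination 4 * hzz - (2 * z + 1) * hd
    have hb : ∀ t : ℕ, (t : Kq q) - 1 - z ≠ 0 := by
      intro t h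
      have h4 := rq_frob_two q hq3 hm (star ⟨t, 1⟩)
      rw [rq_star_t, h, zero_pow hq.out.ne_zero, star_star, rq_t] at h4
      exact ha t h4.symm
    set P : (Kq q)[X] := (X + C z) ^ (2 * k + 1) * (X + C (-1 - z)) ^ k - 1 with hP
    have hP0 : P = 0 := by
      apply poly_zero q P (range q) le_rfl
      · intro t ht
        have hnd : ¬ (q : ℤ) ∣ nr (⟨t, 1⟩ : Ei) := by
          rw [dvd_nr q hq3, nr_t]; exact mul_ne_zero (ha t) (hb t)
        have h1 := hcon _ hnd
        unfold KK at h1
        rw [if_neg (by omega), map_mul, nr_t, rq_t, hk1] at h1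
        rw [hP, eval_sub, eval_mul, eval_pow, eval_pow, eval_add, eval_add, eval_X, eval_C, eval_C,
          eval_one]
        have e1 : (t : Kq q) + (-1 - z) = t - 1 - z := by ring
        rw [e1]
        have e2 : ∀ a b : Kq q, a ≠ 0 → b ≠ 0 → (a * b * a) ^ (k + 1) * (a * b)⁻¹ =
            a ^ (2 * k + 1) * b ^ k := by
          intro a b ha hb
          rw [mul_inv_eq_iff_eq_mul₀ (mul_ne_zero ha hb)]
          ring
        rw [← hz, e2 _ _ (ha t) (hb t)] at h1
        rw [h1, sub_self]
      · rw [card_range]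
        have h1 : P.natDegree ≤ 3 * k + 1 := by
          refine (natDegree_sub_le _ _).trans (max_le ?_ ?_)
          · refine natDegree_mul_le.trans ?_
            have h4 : ((X + C z : (Kq q)[X]) ^ (2 * k + 1)).natDegree ≤ 2 * k + 1 := by
              refine natDegree_pow_le.trans ?_
              rw [natDegree_X_add_C, mul_one]
            have h5 : ((X + C (-1 - z) : (Kq q)[X]) ^ k).natDegree ≤ k := by
              refine natDegree_pow_le.trans ?_
              rw [natDegree_X_add_C, mul_one]
            omega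
          · rw [natDegree_one]; omega
        omega
    have h1 : P.eval (-z) = 0 := by rw [hP0, eval_zero]
    rw [hP, eval_sub, eval_mul, eval_pow, eval_pow, eval_add, eval_add, eval_X, eval_C, eval_C,
      neg_add_cancel, zero_pow (by omega), zero_mul, eval_one, zero_sub] at h1
    norm_num at h1

theorem leg_nontriv (hq3 : q ≠ 3) (hq2 : q ≠ 2) : ∃ α : Ei, legendreSym q (nr α) = -1 := by
  have hchar : ringChar (ZMod q) ≠ 2 := by rw [ZMod.ringChar_zmod_n]; exact hq2
  obtain ⟨a, ha⟩ := FiniteField.exists_nonsquare (F := ZMod q) hchar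
  have h3 : (3 : ZMod q) ≠ 0 := three_ne hq3
  have h2 : (2 : ZMod q) ≠ 0 := by
    have : ((2 : ℕ) : ZMod q) ≠ 0 := by
      rw [Ne, ZMod.natCast_eq_zero_iff]
      intro hd
      exact hq2 ((Nat.prime_dvd_prime_iff_eq hq.out Nat.prime_two).mp hd)
    exact_mod_cast this
  obtain ⟨u, v, huv⟩ := FiniteField.exists_root_sum_quadratic (R := ZMod q)
    (f := C 1 * X ^ 2 + C 0 * X + C 0) (g := C 3 * X ^ 2 + C 0 * X + C (-(4 * a)))
    (degree_quadratic one_ne_zero) (degree_quadratic h3)
    (by rw [ZMod.card]; exact hq.out.eq_two_or_odd.resolve_left hq2)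
  simp only [eval_add, eval_mul, eval_C, eval_pow, eval_X] at huv
  obtain ⟨x, hx⟩ := ZMod.intCast_surjective ((u + v) / 2)
  obtain ⟨y, hy⟩ := ZMod.intCast_surjective v
  refine ⟨⟨x, y⟩, ?_⟩
  have hx2 : 2 * (x : ZMod q) = u + v := by rw [hx]; field_simp
  have hn : ((nr (⟨x, y⟩ : Ei) : ℤ) : ZMod q) = a := by
    unfold nr
    push_cast
    rw [hy]
    have h4 : (4 : ZMod q) ≠ 0 := by
      have : (4 : ZMod q) = 2 * 2 := by norm_num
      rw [this]; exact mul_ne_zero h2 h2
    apply mul_left_cancel₀ h4
    linear_combination huv + (2 * (x : ZMod q) + u - v) * hx2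
  rw [legendreSym, hn]
  exact quadraticChar_neg_one_iff_not_isSquare.mpr ha

end

end Pool.Agent.R361.SX
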