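import Mathlib
import Pool.Agent.R361.SX.Surj
import Pool.Agent.R361.QF.Sieve

set_option autoImplicit false

/-! # The sextic symbols -/

namespace Pool.Agent.R361.SX

open Finset
open Pool.Agent.Y692.QS
open Pool.Agent.R361.QF (QD norm_per)

lemma ne3 {q : ℕ} (h : ¬ q ∣ 6) : q ≠ 3 := by
  rintro rfl; exact h (by norm_num)

lemma ne2 {q : ℕ} (h : ¬ q ∣ 6) : q ≠ 2 := by
  rintro rfl; exact h (by norm_num)

/-- the sextic symbol of `q` with complex values -/
noncomputable def psi6 (q : ℕ) (α : Ei) : ℂ :=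
  if h : q.Prime ∧ ¬ q ∣ 6 ∧ ¬ (q : ℤ) ∣ nr α then
    haveI : Fact q.Prime := ⟨h.1⟩
    ((legendreSym q (nr α) : ℤ) : ℂ) * toC (cu (zq q (ne3 h.2.1)) (KK q (ne3 h.2.1) α))
  else 0

lemma psi6_eq (q : ℕ) [hq : Fact q.Prime] (h6 : ¬ q ∣ 6) (α : Ei) (hα : ¬ (q : ℤ) ∣ nr α) :
    psi6 q α = ((legendreSym q (nr α) : ℤ) : ℂ) *
      toC (cu (zq q (ne3 h6)) (KK q (ne3 h6) α)) := by
  unfold psi6
  rw [dif_pos ⟨hq.out, h6, hα⟩]

lemma psi6_zero (q : ℕ) (α : Ei) (h : ¬ (q.Prime ∧ ¬ q ∣ 6 ∧ ¬ (q : ℤ) ∣ nr α)) :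
    psi6 q α = 0 := dif_neg h

lemma cop (q : ℕ) (hq : q.Prime) (α : Ei) (hα : ¬ (q : ℤ) ∣ nr α) : IsCoprime (nr α) (q : ℤ) := by
  rw [isCoprime_comm, Prime.coprime_iff_not_dvd (Nat.prime_iff_prime_int.1 hq)]
  exact hα

lemma KK_one (q : ℕ) [hq : Fact q.Prime] (hq3 : q ≠ 3) : KK q hq3 1 = 1 := by
  have h1 := KK_mul q hq3 1 1
  rw [mul_one] at h1
  have h2 : KK q hq3 1 ^ 3 = 1 := KK_cube q hq3 (by rw [nr_one]; exact isCoprime_one_left)
  have h0 : KK q hq3 1 ≠ 0 := by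
    intro h
    rw [h] at h2
    norm_num at h2
  exact (mul_left_cancel₀ h0 (by rw [← h1, mul_one])).symm

lemma psi6_mul (q : ℕ) (hq : q.Prime) (α β : Ei) : psi6 q (α * β) = psi6 q α * psi6 q β := by
  have hF : Fact q.Prime := ⟨hq⟩
  have hpq : Prime (q : ℤ) := Nat.prime_iff_prime_int.1 hq
  by_cases h6 : q ∣ 6
  · rw [psi6_zero q (α * β) (fun h => h.2.1 h6), psi6_zero q α (fun h => h.2.1 h6), zero_mul]
  by_cases hα : (q : ℤ) ∣ nr α
  · rw [psi6_zero q α (fun h => h.2.2 hα), zero_mul]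
    apply psi6_zero
    intro h
    apply h.2.2
    rw [nr_mul]
    exact Dvd.dvd.mul_right hα _
  by_cases hβ : (q : ℤ) ∣ nr β
  · rw [psi6_zero q β (fun h => h.2.2 hβ), mul_zero]
    apply psi6_zero
    intro h
    apply h.2.2
    rw [nr_mul]
    exact Dvd.dvd.mul_left hβ _
  have hαβ : ¬ (q : ℤ) ∣ nr (α * β) := by
    rw [nr_mul]
    intro h
    rcases hpq.dvd_or_dvd h with h | h
    · exact hα h
    · exact hβ h
  rw [psi6_eq q h6 _ hαβ, psi6_eq q h6 _ hα, psi6_eq q h6 _ hβ, nr_mul, legendreSym.mul, KK_mul,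
    cu_mul (zq_sq q (ne3 h6)) (three_ne_k q (ne3 h6)) (KK_cube q (ne3 h6) (cop q hq α hα))
      (KK_cube q (ne3 h6) (cop q hq β hβ)), map_mul]
  push_cast
  ring

lemma psi6_parts (q : ℕ) [hq : Fact q.Prime] (h6 : ¬ q ∣ 6) (α : Ei) (hα : ¬ (q : ℤ) ∣ nr α) :
    ((legendreSym q (nr α) : ℤ) : ℂ) ^ 2 = 1 ∧
    (toC (cu (zq q (ne3 h6)) (KK q (ne3 h6) α))) ^ 3 = 1 := by
  constructor
  · have : legendreSym q (nr α) ^ 2 = 1 := by
      apply legendreSym.sq_one
      rw [Ne, ZMod.intCast_zmod_eq_zero_iff_dvd]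
      exact hα
    exact_mod_cast congrArg (fun n : ℤ => (n : ℂ)) this
  · rw [← map_pow, (cu_spec (zq_sq q (ne3 h6)) (KK_cube q (ne3 h6) (cop q hq.out α hα))).1,
      map_one]

lemma prim6 (c : ℂ) (h3 : c ^ 3 = 1) (h1 : c ≠ 1) : IsPrimitiveRoot (-c) 6 := by
  have h0 : c ≠ 0 := by
    rintro rfl
    norm_num at h3
  apply IsPrimitiveRoot.mk_of_lt _ (by norm_num)
  · calc (-c) ^ 6 = (c ^ 3) ^ 2 := by ring
      _ = 1 := by rw [h3, one_pow]
  · intro l hl hl6 h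
    interval_cases l
    · have : c = -1 := by linear_combination -h
      rw [this] at h3
      norm_num at h3
    · apply h1
      have h2 : c ^ 2 = 1 := by linear_combination h
      calc c = c * c ^ 2 := by rw [h2, mul_one]
        _ = c ^ 3 := by ring
        _ = 1 := h3
    · have h2 : (-c) ^ 3 = -1 := by linear_combination -h3
      rw [h2] at h
      norm_num at h
    · apply h1
      calc c = c ^ 3 * c := by rw [h3, one_mul]
        _ = (-c) ^ 4 := by ring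
        _ = 1 := h
    · have h2 : c ^ 2 = -1 := by
        calc c ^ 2 = c ^ 3 * c ^ 2 := by rw [h3, one_mul]
          _ = -((-c) ^ 5) := by ring
          _ = -1 := by rw [h]
      have h4 : (c ^ 3) ^ 2 = (c ^ 2) ^ 3 := by ring
      rw [h3, h2] at h4
      norm_num at h4

lemma psi6_pow (q : ℕ) (hq : q.Prime) (α : Ei) (n : ℕ) (hn : 0 < n) :
    psi6 q (α ^ n) = psi6 q α ^ n := by
  obtain ⟨m, rfl⟩ := Nat.exists_eq_succ_of_ne_zero hn.ne'
  clear hn
  induction m with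
  | zero => simp
  | succ m ih => rw [pow_succ α, psi6_mul q hq, ih, ← pow_succ]

theorem psi6_QD : QD (-1) (-1) (2 * 3) 6 psi6 where
  one q hq h6 := by
    have hF : Fact q.Prime := ⟨hq⟩
    rw [psi6_eq q h6 1 (by
      rw [nr_one]
      intro h
      exact hq.one_lt.ne' (by
        have := Int.eq_one_of_dvd_one (by positivity) h
        exact_mod_cast this)), nr_one, legendreSym.at_one, KK_one, cu_one, map_one]
    norm_num
  mul q hq α β := psi6_mul q hq α β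
  per q hq α β h1 h2 := by
    have hF : Fact q.Prime := ⟨hq⟩
    have hn : (q : ℤ) ∣ nr α - nr β := by
      rw [nr_eq, nr_eq]
      exact norm_per q α β h1 h2
    have hd : (q : ℤ) ∣ nr α ↔ (q : ℤ) ∣ nr β := (Int.dvd_iff_dvd_of_dvd_sub hn)
    by_cases h6 : q ∣ 6
    · rw [psi6_zero q α (fun h => h.2.1 h6), psi6_zero q β (fun h => h.2.1 h6)]
    by_cases hα : (q : ℤ) ∣ nr α
    · rw [psi6_zero q α (fun h => h.2.2 hα), psi6_zero q β (fun h => h.2.2 (hd.mp hα))]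
    rw [psi6_eq q h6 α hα, psi6_eq q h6 β (fun h => hα (hd.mpr h))]
    have h3 : legendreSym q (nr α) = legendreSym q (nr β) := by
      unfold legendreSym
      congr 1
      rw [← sub_eq_zero, ← Int.cast_sub, ZMod.intCast_zmod_eq_zero_iff_dvd]
      exact hn
    have h4 : ((q : ℤ) : Ei) ∣ α - β := by
      rw [int_dvd]
      exact ⟨by rw [QuadraticAlgebra.re_sub]; exact h1, by rw [QuadraticAlgebra.im_sub]; exact h2⟩
    rw [h3, KK_per q (ne3 h6) h4]
  val q hq α := by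
    have hF : Fact q.Prime := ⟨hq⟩
    by_cases h6 : q ∣ 6
    · left; exact psi6_zero q α (fun h => h.2.1 h6)
    by_cases hα : (q : ℤ) ∣ nr α
    · left; exact psi6_zero q α (fun h => h.2.2 hα)
    right
    rw [psi6_eq q h6 α hα]
    obtain ⟨h1, h2⟩ := psi6_parts q h6 α hα
    rw [mul_pow]
    have e1 : ((legendreSym q (nr α) : ℤ) : ℂ) ^ (2 * 3) = 1 := by rw [pow_mul, h1, one_pow]
    have e2 : (toC (cu (zq q (ne3 h6)) (KK q (ne3 h6) α))) ^ (2 * 3) = 1 := by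
      rw [mul_comm 2 3, pow_mul, h2, one_pow]
    rw [e1, e2, one_mul]
  zero q hq h6 α := psi6_zero q α (fun h => h.2.1 h6)
  gen q hq h6 := by
    have hF : Fact q.Prime := ⟨hq⟩
    obtain ⟨β₁, hβ₁⟩ := leg_nontriv q (ne3 h6) (ne2 h6)
    obtain ⟨β₂, hβ₂, hK⟩ := KK_nontriv q (ne3 h6) (ne2 h6)
    have hn1 : ¬ (q : ℤ) ∣ nr β₁ := by
      intro h
      have : legendreSym q (nr β₁) = 0 := by
        rw [legendreSym.eq_zero_iff, ZMod.intCast_zmod_eq_zero_iff_dvd]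
        exact h
      rw [this] at hβ₁
      norm_num at hβ₁
    have hpq : Prime (q : ℤ) := Nat.prime_iff_prime_int.1 hq
    have nr_pow : ∀ (α : Ei) (n : ℕ), nr (α ^ n) = nr α ^ n := by
      intro α n
      induction n with
      | zero => rw [pow_zero, pow_zero, nr_one]
      | succ n ih => rw [pow_succ, nr_mul, ih, pow_succ]
    refine ⟨β₁ ^ 3 * β₂ ^ 4, ?_, ?_⟩
    · rw [← nr_eq, nr_mul, nr_pow, nr_pow]
      intro h
      rcases hpq.dvd_or_dvd h with h | h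
      · exact hn1 (hpq.dvd_of_dvd_pow h)
      · exact hβ₂ (hpq.dvd_of_dvd_pow h)
    · obtain ⟨a1, a2⟩ := psi6_parts q h6 β₁ hn1
      obtain ⟨b1, b2⟩ := psi6_parts q h6 β₂ hβ₂
      set c := toC (cu (zq q (ne3 h6)) (KK q (ne3 h6) β₂)) with hc
      have h1 : psi6 q (β₁ ^ 3 * β₂ ^ 4) = -c := by
        rw [psi6_mul q hq, psi6_pow q hq _ 3 (by norm_num), psi6_pow q hq _ 4 (by norm_num),
          psi6_eq q h6 β₁ hn1, psi6_eq q h6 β₂ hβ₂, ← hc, mul_pow, mul_pow, a2, hβ₁]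
        have e1 : ((legendreSym q (nr β₂) : ℤ) : ℂ) ^ 4 = 1 := by
          rw [show 4 = 2 * 2 by norm_num, pow_mul, b1, one_pow]
        have e2 : c ^ 4 = c := by rw [pow_succ, b2, one_mul]
        rw [e1, e2]
        push_cast
        ring
      rw [h1]
      apply prim6 c b2
      intro hc1
      apply hK
      have h5 : cu (zq q (ne3 h6)) (KK q (ne3 h6) β₂) = 1 := toC_inj (by rw [← hc, hc1, map_one])
      have h6' := (cu_spec (zq_sq q (ne3 h6)) (KK_cube q (ne3 h6) (cop q hq β₂ hβ₂))).2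
      rw [h5, map_one] at h6'
      exact h6'.symm

end Pool.Agent.R361.SX
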