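import Mathlib
import Pool.Agent.R361.SX.Cub
import Pool.Agent.R361.QF.HalfNe

set_option autoImplicit false

/-! # The sextic character, its values and the Bernoulli numbers -/

namespace Pool.Agent.R361.SX

open Finset
open Pool.Agent.Y692.QS
open Pool.Agent.R361.QF (half_pow_sum half_ne)

section

variable {p : ℕ} [hp : Fact p.Prime] {π : Ei} (hπ : nr π = p) (hp3 : p ≠ 3) (hp12 : p % 12 = 7)

/-- the sextic character -/
noncomputable def c6 : MulChar (ZMod p) Ei :=
  (quadraticChar (ZMod p)).ringHomComp (Int.castRingHom Ei) * chi hπ hp3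

lemma c6_apply (t : ZMod p) : c6 hπ hp3 t = ((quadraticChar (ZMod p) t : ℤ) : Ei) * chi hπ hp3 t := by
  unfold c6
  rw [MulChar.mul_apply, MulChar.ringHomComp_apply]
  rfl

include hp12 in
lemma rc2 : ringChar (ZMod p) ≠ 2 := by
  rw [ZMod.ringChar_zmod_n]
  omega

include hp12 in
lemma c6_neg_one : c6 hπ hp3 (-1) = -1 := by
  rw [c6_apply, chi_neg_one, quadraticChar_neg_one (rc2 hp12), ZMod.card,
    ZMod.χ₄_nat_three_mod_four (by omega)]
  norm_num

include hp12 in
/-- the values at the primes -/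
theorem rec6 (q : ℕ) (hq : q.Prime) (h6 : ¬ q ∣ 6) (hpq : p ≠ q) :
    toC (c6 hπ hp3 (q : ZMod p)) = (if q % 4 = 3 then -1 else 1) * psi6 q (ns π) := by
  have hF : Fact q.Prime := ⟨hq⟩
  have h3 : ¬ (3 : ℤ) ∣ nr π := by rw [hπ]; omega
  have hn : nr (ns π) = p := by rw [nr_ns h3, hπ]
  have hpdq : ¬ (p : ℤ) ∣ (q : ℤ) := by
    intro h
    have : p ∣ q := by exact_mod_cast h
    exact hpq ((Nat.prime_dvd_prime_iff_eq hp.out hq).mp this)
  have hqdp : ¬ (q : ℤ) ∣ nr (ns π) := by
    rw [hn]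
    intro h
    have : q ∣ p := by exact_mod_cast h
    exact hpq ((Nat.prime_dvd_prime_iff_eq hq hp.out).mp this).symm
  have h1 := (Kap.prime q (ne3 h6)).val p π hπ hp3 hpdq
  rw [Int.cast_natCast] at h1
  rw [c6_apply, map_mul, h1, psi6_eq q h6 _ hqdp, map_intCast]
  have h2 : quadraticChar (ZMod p) (q : ZMod p) = legendreSym p q := by
    rw [legendreSym, Int.cast_natCast]
  have h4 : legendreSym q p = (-1) ^ (p / 2 * (q / 2)) * legendreSym p q :=
    legendreSym.quadratic_reciprocity' (by omega) (ne2 h6)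
  have hqodd : q % 2 = 1 := hq.eq_two_or_odd.resolve_left (ne2 h6)
  have h5 : (legendreSym p q : ℤ) = (if q % 4 = 3 then -1 else 1) * legendreSym q p := by
    rw [h4]
    split_ifs with hm
    · have : Odd (p / 2 * (q / 2)) := by
        rw [Nat.odd_mul, Nat.odd_iff, Nat.odd_iff]
        omega
      rw [this.neg_one_pow]; ring
    · have : Even (p / 2 * (q / 2)) := by
        rw [Nat.even_mul, Nat.even_iff, Nat.even_iff]
        omega
      rw [this.neg_one_pow]; ring
  rw [h2, h5, hn]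
  unfold kq
  push_cast
  ring

/-- the half sum -/
noncomputable def S6 : Ei := ∑ a ∈ Icc 1 ((p - 1) / 2), c6 hπ hp3 (a : ZMod p)

include hp12 in
lemma red_c6 (t : ZMod p) (ht : t ≠ 0) :
    red hπ (c6 hπ hp3 t) = t ^ (5 * ((p - 1) / 6)) ∧
    red hπ (star (c6 hπ hp3 t)) = t ^ ((p - 1) / 6) := by
  have h1 : ((quadraticChar (ZMod p) t : ℤ) : ZMod p) = t ^ (p / 2) := by
    have := quadraticChar_eq_pow_of_char_ne_two' (rc2 hp12) t
    rwa [ZMod.card] at this
  have h2 := chi_red hπ hp3 t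
  have h3 : star (chi hπ hp3 t) = chi hπ hp3 t ^ 2 := by
    rcases cube_cases (chi_cube hπ hp3 ht) with h | h | h <;> rw [h] <;> decide
  have h4 : t ^ (p - 1) = 1 := ZMod.pow_card_sub_one_eq_one ht
  constructor
  · rw [c6_apply, map_mul, map_intCast, h1, h2, ← pow_add]
    congr 1
    omega
  · rw [c6_apply, star_mul, h3, map_mul, map_pow, h2]
    have h5 : star (((quadraticChar (ZMod p) t : ℤ) : Ei)) = ((quadraticChar (ZMod p) t : ℤ) : Ei) := by
      exact star_intCast _
    rw [h5, map_intCast, h1, ← pow_mul, ← pow_add]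
    have e : (p - 1) / 3 * 2 + p / 2 = (p - 1) + (p - 1) / 6 := by omega
    rw [e, pow_add, h4, one_mul]

include hp12 in
/-- the half sum is divisible by a prime above `p` as soon as one of the Bernoulli numbers is
divisible by `p` -/
theorem bern6 (h13 : 13 ≤ p)
    (h : (p : ℤ) ∣ (bernoulli ((p + 5) / 6)).num ∨ (p : ℤ) ∣ (bernoulli ((5 * p + 1) / 6)).num) :
    (p : ℤ) ∣ nr (S6 hπ hp3) := by
  have hne : ∀ a ∈ Icc 1 ((p - 1) / 2), (a : ZMod p) ≠ 0 := by
    intro a ha
    rw [mem_Icc] at ha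
    rw [Ne, ZMod.natCast_eq_zero_iff]
    intro hd
    have := Nat.le_of_dvd (by omega) hd
    omega
  have hz : red hπ (S6 hπ hp3) = 0 ∨ red hπ (star (S6 hπ hp3)) = 0 := by
    rcases h with h | h
    · right
      have e1 : (p - 1) / 6 + 1 = (p + 5) / 6 := by omega
      have hsum := half_pow_sum p (by omega) ((p - 1) / 6) (by omega) (by omega) (by rw [e1]; exact h)
      unfold S6
      rw [star_sum, map_sum, ← hsum]
      exact sum_congr rfl fun a ha => (red_c6 hπ hp3 hp12 _ (hne a ha)).2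
    · left
      have e1 : 5 * ((p - 1) / 6) + 1 = (5 * p + 1) / 6 := by omega
      have hsum := half_pow_sum p (by omega) (5 * ((p - 1) / 6)) (by omega) (by omega)
        (by rw [e1]; exact h)
      unfold S6
      rw [map_sum, ← hsum]
      exact sum_congr rfl fun a ha => (red_c6 hπ hp3 hp12 _ (hne a ha)).1
  rw [← ZMod.intCast_zmod_eq_zero_iff_dvd]
  have : ((nr (S6 hπ hp3) : ℤ) : ZMod p) = red hπ ((nr (S6 hπ hp3) : ℤ) : Ei) := by rw [map_intCast]
  rw [this, ← mul_star, map_mul]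
  rcases hz with hz | hz <;> rw [hz] <;> ring

include hp12 in
theorem c6_odd : DirichletCharacter.Odd ((c6 hπ hp3).ringHomComp toC) := by
  unfold DirichletCharacter.Odd
  rw [MulChar.ringHomComp_apply, c6_neg_one hπ hp3 hp12, map_neg, map_one]

lemma toC_S6 : toC (S6 hπ hp3) =
    ∑ a ∈ Icc 1 ((p - 1) / 2), ((c6 hπ hp3).ringHomComp toC) (a : ZMod p) := by
  unfold S6
  rw [map_sum]
  rfl

include hp12 in
/-- the half sum does not vanish -/
theorem S6_ne : nr (S6 hπ hp3) ≠ 0 := by
  rw [Ne, nr_zero_iff]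
  intro h
  apply half_ne (by omega) _ (c6_odd hπ hp3 hp12)
  rw [← toC_S6, h, map_zero]

end

end Pool.Agent.R361.SX
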