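import Mathlib
import Pool.Agent.R361.SX.Bern6
import Pool.Agent.R361.QF.Apx

set_option autoImplicit false

/-! # The sextic indices -/

namespace Pool.Agent.R361.SX

open Finset Filter Topology
open Pool.Agent.Y692.QS
open Pool.Agent.R361.AC (oddTo cw)
open Pool.Agent.R361.QF (cm cm_prime cm_eq_hom dh dh_apply cm_zero_of_dvd norm_short ev_small ev_pow
  Nf Nf_lt Yf generic_count)
open scoped ComplexConjugate

/-- the character modulo 3 on the naturals -/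
def x3 : ℕ →*₀ ℤ where
  toFun n := if n % 3 = 0 then 0 else if n % 3 = 1 then 1 else -1
  map_zero' := by decide
  map_one' := by decide
  map_mul' m n := by
    have h1 : m % 3 = 0 ∨ m % 3 = 1 ∨ m % 3 = 2 := by omega
    have h2 : n % 3 = 0 ∨ n % 3 = 1 ∨ n % 3 = 2 := by omega
    rw [Nat.mul_mod]
    rcases h1 with h1 | h1 | h1 <;> rcases h2 with h2 | h2 | h2 <;> rw [h1, h2] <;> decide

lemma x3_apply (n : ℕ) : x3 n = if n % 3 = 0 then 0 else if n % 3 = 1 then 1 else -1 := rfl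

lemma x3_one (n : ℕ) (h : n % 3 = 1) : x3 n = 1 := by rw [x3_apply, h]; rfl

lemma x3_two (n : ℕ) (h : n % 3 = 2) : x3 n = -1 := by rw [x3_apply, h]; rfl

lemma x3_zero (n : ℕ) (h : n % 3 = 0) : x3 n = 0 := by rw [x3_apply, h]; rfl

lemma x3_prime (p : ℕ) (hp : p.Prime) (h3 : p ≠ 3) : x3 p = 1 ∨ x3 p = -1 := by
  have h1 : p % 3 ≠ 0 := by
    intro h
    exact h3 ((Nat.prime_dvd_prime_iff_eq Nat.prime_three hp).1 (Nat.dvd_of_mod_eq_zero h)).symm
  have h2 : p % 3 = 1 ∨ p % 3 = 2 := by omega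
  rcases h2 with h | h
  · exact Or.inl (x3_one p h)
  · exact Or.inr (x3_two p h)

lemma x3_partial (m : ℕ) :
    1 / 2 + 1 / (3 * (m : ℝ) + 2) ≤ ∑ k ∈ Icc 1 (3 * m + 1), (x3 k : ℝ) / k := by
  induction m with
  | zero => rw [show 3 * 0 + 1 = 1 by norm_num, Icc_self, sum_singleton, x3_one 1 rfl]; norm_num
  | succ m ih =>
    rw [show 3 * (m + 1) + 1 = 3 * m + 1 + 1 + 1 + 1 by ring,
      sum_Icc_succ_top (by omega), sum_Icc_succ_top (by omega), sum_Icc_succ_top (by omega),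
      x3_two (3 * m + 1 + 1) (by omega), x3_zero (3 * m + 1 + 1 + 1) (by omega),
      x3_one (3 * m + 1 + 1 + 1 + 1) (by omega)]
    push_cast
    have h1 : (1 : ℝ) / (3 * (m + 1) + 2) ≤ 1 / (3 * m + 3 + 1) := by
      apply one_div_le_one_div_of_le (by positivity)
      linarith
    have h2 : (-1 : ℝ) / (3 * m + 1 + 1) = - (1 / (3 * m + 2)) := by
      rw [neg_div]; congr 2; ring
    rw [h2]
    simp only [zero_div, add_zero]
    linarith

lemma x3_lower (t : ℕ) (ht : 1 ≤ t) : 1 / 2 ≤ ∑ k ∈ Icc 1 t, (x3 k : ℝ) / k := by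
  obtain ⟨m, hm⟩ : ∃ m, t = 3 * m + 1 ∨ t = 3 * m + 2 ∨ t = 3 * m + 3 := ⟨(t - 1) / 3, by omega⟩
  have h1 := x3_partial m
  have h0 : (0 : ℝ) ≤ 1 / (3 * (m : ℝ) + 2) := by positivity
  have h2 : ∑ k ∈ Icc 1 (3 * m + 2), (x3 k : ℝ) / k =
      ∑ k ∈ Icc 1 (3 * m + 1), (x3 k : ℝ) / k - 1 / (3 * (m : ℝ) + 2) := by
    rw [show 3 * m + 2 = 3 * m + 1 + 1 by ring, sum_Icc_succ_top (by omega),
      x3_two (3 * m + 1 + 1) (by omega)]
    push_cast
    have : (3 * (m : ℝ) + 1 + 1) = 3 * m + 2 := by ring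
    rw [this]
    ring
  have h3 : ∑ k ∈ Icc 1 (3 * m + 3), (x3 k : ℝ) / k = ∑ k ∈ Icc 1 (3 * m + 2), (x3 k : ℝ) / k := by
    rw [show 3 * m + 3 = 3 * m + 2 + 1 by ring, sum_Icc_succ_top (by omega),
      x3_zero (3 * m + 2 + 1) (by omega)]
    simp
  rcases hm with rfl | rfl | rfl
  · linarith
  · rw [h2]; linarith
  · rw [h3, h2]; linarith

lemma w_prim : IsPrimitiveRoot w 3 := by
  have h : orderOf w = 3 := orderOf_eq_prime w_cube (by decide)
  rw [← h]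
  exact IsPrimitiveRoot.orderOf w

/-- primes `1 mod 3` are norms -/
theorem exists_pi (p : ℕ) (hp : p.Prime) (h3 : p % 3 = 1) : ∃ π : Ei, nr π = p := by
  have hF : Fact p.Prime := ⟨hp⟩
  have hp2 := hp.two_le
  obtain ⟨χ, hχ⟩ := MulChar.exists_mulChar_orderOf (ZMod p) (n := 3)
    (by rw [ZMod.card]; omega) w_prim
  have hχ1 : χ ≠ 1 := by
    intro h
    rw [h, orderOf_one] at hχ
    norm_num at hχ
  have hχ2 : χ * χ ≠ 1 := by
    intro h
    have := orderOf_dvd_of_pow_eq_one (x := χ) (n := 2) (by rw [sq]; exact h)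
    rw [hχ] at this
    norm_num at this
  refine ⟨jacobiSum χ χ, ?_⟩
  set c : MulChar (ZMod p) ℂ := χ.ringHomComp toC with hc
  have hinj : ∀ φ : MulChar (ZMod p) Ei, φ.ringHomComp toC = 1 → φ = 1 := by
    intro φ h
    refine MulChar.ext fun t => ?_
    apply toC_inj
    rw [← MulChar.ringHomComp_apply, h, MulChar.one_apply_coe, MulChar.one_apply_coe, map_one]
  have hc1 : c ≠ 1 := fun h => hχ1 (hinj χ h)
  have hc2 : c * c ≠ 1 := by
    intro h
    apply hχ2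
    apply hinj
    rw [MulChar.ringHomComp_mul]
    exact h
  have h1 := jacobiSum_mul_jacobiSum_inv (F := ZMod p) (F' := ℂ)
    (by rw [ZMod.ringChar_zmod_n, ringChar.eq_zero]; exact hp.ne_zero.symm) hc1 hc1 hc2
  have h2 : jacobiSum c⁻¹ c⁻¹ = conj (jacobiSum c c) := by
    unfold jacobiSum
    rw [map_sum]
    apply sum_congr rfl
    intro x _
    rw [map_mul]
    congr 1
    · exact (MulChar.star_apply' c x).symm
    · exact (MulChar.star_apply' c (1 - x)).symm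
  rw [h2, Complex.mul_conj, hc, jacobiSum_ringHomComp, ZMod.card, toC_normSq] at h1
  have h5 : (((nr (jacobiSum χ χ) : ℤ) : ℝ) : ℂ) = ((p : ℝ) : ℂ) := by rw [h1]; push_cast; rfl
  have h6 : ((nr (jacobiSum χ χ) : ℤ) : ℝ) = (p : ℝ) := by exact_mod_cast h5
  exact_mod_cast h6

lemma x3_split (p : ℕ) (hp : p.Prime) (h : x3 p = 1) :
    ∃ r s : ZMod p, r ≠ s ∧ r + s = ((-1 : ℤ) : ZMod p) ∧ r * s = -((-1 : ℤ) : ZMod p) := by
  have hF : Fact p.Prime := ⟨hp⟩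
  have h3 : p % 3 = 1 := by
    by_contra hcon
    have h2 : p % 3 = 0 ∨ p % 3 = 2 := by omega
    rcases h2 with h2 | h2
    · rw [x3_zero p h2] at h; norm_num at h
    · rw [x3_two p h2] at h; norm_num at h
  have hp3 : p ≠ 3 := by rintro rfl; norm_num at h3
  obtain ⟨π, hπ⟩ := exists_pi p hp h3
  have hz := zt_sq hπ
  set z := zt p π with hzd
  refine ⟨z, -1 - z, ?_, by push_cast; ring, ?_⟩
  · intro he
    apply three_ne hp3
    have hd : 2 * z + 1 = 0 := by linear_combination he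
    linear_combination 4 * hz - (2 * z + 1) * hd
  · push_cast
    linear_combination -hz

lemma ei_size (α : Ei) (x : ℕ) (h : α.norm ≤ x) : |α.re| ≤ Yf x ∧ |α.im| ≤ Yf x := by
  have key : ∀ (a : ℤ), a ^ 2 ≤ 4 * x → |a| ≤ Yf x := by
    intro a h
    have h1 : (a.natAbs) ^ 2 ≤ 4 * x := by
      have : ((a.natAbs : ℤ)) ^ 2 ≤ 4 * x := by rw [Int.natAbs_sq]; exact h
      exact_mod_cast this
    have h2 : a.natAbs ≤ 2 * Nat.sqrt x + 2 := by
      have h3 := Nat.lt_succ_sqrt x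
      have h4 : x < (Nat.sqrt x + 1) * (Nat.sqrt x + 1) := h3
      by_contra hcon
      push Not at hcon
      nlinarith
    rw [Int.abs_eq_natAbs]
    exact_mod_cast h2
  rw [← nr_eq] at h
  unfold nr at h
  constructor <;> apply key <;> nlinarith [sq_nonneg (α.re - 2 * α.im), sq_nonneg (2 * α.re - α.im),
    sq_nonneg α.re, sq_nonneg α.im]

/-- the primes -/
def P6 : Set ℕ := {p | p.Prime ∧ p % 12 = 7}

/-- one of the two Bernoulli numbers is divisible by `p` -/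
def B6 (p : ℕ) : Prop :=
  (p : ℤ) ∣ (bernoulli ((p + 5) / 6)).num ∨ (p : ℤ) ∣ (bernoulli ((5 * p + 1) / 6)).num

lemma exists_J : ∃ J : ℕ → Ei, ∀ p ∈ P6, ∃ π : Ei, nr π = p ∧ J p = ns π := by
  have : ∀ p : ℕ, ∃ J : Ei, p ∈ P6 → ∃ π : Ei, nr π = p ∧ J = ns π := by
    intro p
    by_cases h : p ∈ P6
    · have h12 : p % 12 = 7 := h.2
      obtain ⟨π, hπ⟩ := exists_pi p h.1 (by omega)
      exact ⟨ns π, fun _ => ⟨π, hπ, rfl⟩⟩
    · exact ⟨0, fun h' => absurd h' h⟩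
  choose J hJ using this
  exact ⟨J, hJ⟩

/-- the target values -/
def T6 : Set ℝ := {t | ∃ u : ℂ, u ^ 6 = 1 ∧ ∃ m : ℕ, 1 ≤ m ∧
  t = ‖1 - u / 3‖ ^ 2 * (Real.pi ^ 2 / 4 * m)}

lemma fac_lower (u : ℂ) (hu : u ^ 6 = 1) : 4 / 9 ≤ ‖1 - u / 3‖ ^ 2 := by
  have h1 : ‖u‖ = 1 := AC.norm_of_pow 6 (by norm_num) u hu
  have h2 : 2 / 3 ≤ ‖1 - u / 3‖ := by
    have h3 := norm_sub_norm_le (1 : ℂ) (u / 3)
    rw [norm_one, norm_div, h1] at h3
    have h4 : ‖(3 : ℂ)‖ = 3 := by simp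
    rw [h4] at h3
    linarith
  nlinarith

lemma T6_fin (R : ℝ) : (T6 ∩ Set.Iic R).Finite := by
  have hpi := Real.pi_gt_three
  have h0 : (1 : ℝ) ≤ 4 / 9 * (Real.pi ^ 2 / 4) := by nlinarith
  have hf : ({u : ℂ | u ^ 6 = 1} : Set ℂ).Finite := by
    apply Set.Finite.subset (Polynomial.nthRootsFinset 6 (1 : ℂ)).finite_toSet
    intro u hu
    rw [mem_coe, Polynomial.mem_nthRootsFinset (by norm_num)]
    exact hu
  apply Set.Finite.subset ((hf.prod (Set.finite_Iic ⌊R⌋₊)).image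
    (fun z : ℂ × ℕ => ‖1 - z.1 / 3‖ ^ 2 * (Real.pi ^ 2 / 4 * (z.2 : ℝ))))
  rintro t ⟨⟨u, hu, m, hm, rfl⟩, hR⟩
  refine ⟨(u, m), ⟨hu, ?_⟩, rfl⟩
  change m ≤ ⌊R⌋₊
  apply Nat.le_floor
  rw [Set.mem_Iic] at hR
  have hm0 : (0 : ℝ) ≤ m := Nat.cast_nonneg m
  have h1 := fac_lower u hu
  refine le_trans ?_ hR
  have h2 : 4 / 9 * (Real.pi ^ 2 / 4 * (m : ℝ)) ≤ ‖1 - u / 3‖ ^ 2 * (Real.pi ^ 2 / 4 * m) :=
    mul_le_mul_of_nonneg_right h1 (by positivity)
  nlinarith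

lemma T6_pos (t : ℝ) (ht : t ∈ T6) : 0 < t := by
  obtain ⟨u, hu, m, hm, rfl⟩ := ht
  have h1 := fac_lower u hu
  have : (1 : ℝ) ≤ m := by exact_mod_cast hm
  have h2 : 0 < ‖1 - u / 3‖ ^ 2 := by linarith
  positivity

section

variable {p : ℕ} [hp : Fact p.Prime] {π : Ei} (hπ : nr π = p) (hp3 : p ≠ 3) (hp12 : p % 12 = 7)

include hp12 in
/-- the exact value -/
lemma target6 (h13 : 13 ≤ p) (hB : B6 p) : ∃ m : ℕ, 1 ≤ m ∧
    ‖∑ n ∈ oddTo (p - 1), ((c6 hπ hp3).ringHomComp toC) (n : ZMod p) * (cw p n : ℂ)‖ ^ 2 =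
      Real.pi ^ 2 / 4 * m := by
  rw [← AC.half_sum_norm p (by omega) _ (c6_odd hπ hp3 hp12), ← toC_S6, Complex.sq_norm, toC_normSq]
  obtain ⟨c, hc⟩ := bern6 hπ hp3 hp12 h13 hB
  have h2 := S6_ne hπ hp3 hp12
  have hn : 0 ≤ nr (S6 hπ hp3) := nr_nonneg _
  have hp0 : (0 : ℤ) < p := by exact_mod_cast hp.out.pos
  have hc1 : 1 ≤ c := by
    by_contra hcon
    push Not at hcon
    have : c ≤ 0 := by omega
    have h3 : nr (S6 hπ hp3) ≤ 0 := by rw [hc]; nlinarith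
    exact h2 (le_antisymm h3 hn)
  refine ⟨c.toNat, by omega, ?_⟩
  have hcc : ((c.toNat : ℕ) : ℝ) = (c : ℝ) := by
    have : ((c.toNat : ℕ) : ℤ) = c := Int.toNat_of_nonneg (by omega)
    exact_mod_cast congrArg (fun z : ℤ => (z : ℝ)) this
  rw [hcc, hc]
  have hpr : (p : ℝ) ≠ 0 := by exact_mod_cast hp.out.ne_zero
  push_cast
  field_simp

include hp12 in
lemma c6_pow (t : ZMod p) (ht : t ≠ 0) : (((c6 hπ hp3).ringHomComp toC) t) ^ 6 = 1 := by
  rw [MulChar.ringHomComp_apply, ← map_pow, c6_apply, mul_pow]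
  have h1 : (quadraticChar (ZMod p) t) ^ 2 = 1 := quadraticChar_sq_one ht
  have h2 := chi_cube hπ hp3 ht
  have e1 : ((quadraticChar (ZMod p) t : ℤ) : Ei) ^ 6 = 1 := by
    have : (quadraticChar (ZMod p) t) ^ 6 = 1 := by
      rw [show 6 = 2 * 3 by norm_num, pow_mul, h1, one_pow]
    have h4 := congrArg (fun n : ℤ => (n : Ei)) this
    push_cast at h4
    exact h4
  have e2 : (chi hπ hp3 t) ^ 6 = 1 := by
    rw [show 6 = 3 * 2 by norm_num, pow_mul, h2, one_pow]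
  rw [e1, e2, one_mul, map_one]

include hp12 in
/-- the short sum in terms of the symbols -/
lemma short6 (N : ℕ) (hN : N < p) :
    ∑ n ∈ Icc 1 N, cm (fun q => (if q % 4 = 3 then -1 else 1) * psi6 q (ns π)) n / n =
      ∑ n ∈ oddTo N, ((c6 hπ hp3).ringHomComp toC) (n : ZMod p) / n -
      ((c6 hπ hp3).ringHomComp toC) ((3 : ℕ) : ZMod p) / 3 *
        ∑ n ∈ oddTo (N / 3), ((c6 hπ hp3).ringHomComp toC) (n : ZMod p) / n := by
  set c := (c6 hπ hp3).ringHomComp toC with hc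
  have h1 : ∑ n ∈ Icc 1 N, cm (fun q => (if q % 4 = 3 then -1 else 1) * psi6 q (ns π)) n / n =
      ∑ n ∈ oddTo N, (if n % 3 = 0 then 0 else c (n : ZMod p) / n) := by
    rw [AC.sum_oddTo]
    apply sum_congr rfl
    intro n hn
    rw [mem_Icc] at hn
    split_ifs with h2 h3
    · rw [cm_zero_of_dvd _ 3 n Nat.prime_three _ (by omega), zero_div]
      rw [psi6_QD.zero 3 Nat.prime_three (by norm_num), mul_zero]
    · congr 1
      rw [← dh_apply hp.out.one_lt]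
      apply cm_eq_hom
      intro q hq
      have hqp := Nat.prime_of_mem_primeFactors hq
      have hqn := Nat.dvd_of_mem_primeFactors hq
      have hle := Nat.le_of_dvd (by omega) hqn
      have h6 : ¬ q ∣ 6 := by
        intro h6
        have : q = 2 ∨ q = 3 := by
          have hle6 := Nat.le_of_dvd (by norm_num) h6
          have h2le := hqp.two_le
          interval_cases q <;> first | omega | (norm_num at hqp) | (norm_num at h6)
        rcases this with rfl | rfl <;> omega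
      have := rec6 hπ hp3 hp12 q hqp h6 (by omega)
      rw [dh_apply, hc, MulChar.ringHomComp_apply, this]
    · rw [cm_zero_of_dvd _ 2 n Nat.prime_two _ (by omega), zero_div]
      rw [psi6_QD.zero 2 Nat.prime_two (by norm_num), mul_zero]
  rw [h1]
  have h2 : ∑ n ∈ oddTo N, (if n % 3 = 0 then 0 else c (n : ZMod p) / n) =
      ∑ n ∈ oddTo N, c (n : ZMod p) / n -
        ∑ n ∈ (oddTo N).filter (fun n => n % 3 = 0), c (n : ZMod p) / n := by
    rw [sum_filter, ← sum_sub_distrib]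
    apply sum_congr rfl
    intro n _
    split_ifs <;> ring
  rw [h2]
  congr 1
  rw [mul_sum]
  symm
  apply sum_nbij' (fun m => 3 * m) (fun n => n / 3)
  · intro m hm
    simp only [oddTo, mem_filter, mem_Icc] at hm ⊢
    omega
  · intro n hn
    simp only [oddTo, mem_filter, mem_Icc] at hn ⊢
    omega
  · intro m hm
    simp only [oddTo, mem_filter, mem_Icc] at hm
    omega
  · intro n hn
    simp only [oddTo, mem_filter, mem_Icc] at hn
    omega
  · intro m hm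
    rw [Nat.cast_mul, Nat.cast_mul, map_mul]
    push_cast
    rw [mul_div_mul_comm]

end

lemma diff6 (F D1 D2 v : ℂ) (L : ℝ) (hL : 1 ≤ L) (hv : ‖v‖ ≤ 1) (h1 : ‖F - D1‖ ≤ 8 / L ^ 2)
    (h2 : ‖F - D2‖ ≤ 8 / L ^ 2) (hD1 : ‖D1‖ ≤ 1 + L) (hD2 : ‖D2‖ ≤ 1 + L) :
    |‖D1 - v / 3 * D2‖ ^ 2 - ‖(1 - v / 3) * F‖ ^ 2| ≤ 4 * (96 / L) := by
  have h3n : ‖v / 3‖ ≤ 1 := by
    rw [norm_div]
    have h4 : ‖(3 : ℂ)‖ = 3 := by simp
    rw [h4]
    linarith
  set G := (1 - v / 3) * F with hG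
  set D := D1 - v / 3 * D2 with hD
  have h3 : ‖G - D‖ ≤ 16 / L ^ 2 := by
    have e : G - D = (F - D1) - v / 3 * (F - D2) := by rw [hG, hD]; ring
    rw [e]
    refine (norm_sub_le _ _).trans ?_
    rw [norm_mul]
    have h5 : ‖v / 3‖ * ‖F - D2‖ ≤ 1 * (8 / L ^ 2) :=
      mul_le_mul h3n h2 (norm_nonneg _) (by norm_num)
    have h6 : (16 : ℝ) / L ^ 2 = 8 / L ^ 2 + 8 / L ^ 2 := by ring
    rw [h6]
    linarith
  have hDn : ‖D‖ ≤ 2 * (1 + L) := by
    rw [hD]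
    refine (norm_sub_le _ _).trans ?_
    rw [norm_mul]
    have h5 : ‖v / 3‖ * ‖D2‖ ≤ 1 * (1 + L) :=
      mul_le_mul h3n hD2 (norm_nonneg _) (by norm_num)
    linarith
  have h4 : |‖G‖ - ‖D‖| ≤ 16 / L ^ 2 := (abs_norm_sub_norm_le G D).trans h3
  have hL2 : 16 / L ^ 2 ≤ 16 := by
    rw [div_le_iff₀ (by positivity)]
    nlinarith
  have h5 : ‖G‖ ≤ 2 * (1 + L) + 16 := by
    have := (abs_le.mp h4).2
    linarith
  have h6 : ‖D‖ ^ 2 - ‖G‖ ^ 2 = -((‖G‖ - ‖D‖) * (‖G‖ + ‖D‖)) := by ring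
  rw [h6, abs_neg, abs_mul, abs_of_nonneg (by positivity : 0 ≤ ‖G‖ + ‖D‖)]
  have h7 : |‖G‖ - ‖D‖| * (‖G‖ + ‖D‖) ≤ 16 / L ^ 2 * (24 * L) := by
    apply mul_le_mul h4 _ (by positivity) (by positivity)
    linarith
  refine h7.trans (le_of_eq ?_)
  have : L ≠ 0 := by linarith
  field_simp
  norm_num

theorem six_count (ε : ℝ) (hε : 0 < ε) :
    ∀ᶠ x : ℕ in atTop,
      (Nat.card {p : ℕ | p ≤ x ∧ p ∈ P6 ∧ B6 p} : ℝ) ≤ ε * (x / Real.log x) := by
  obtain ⟨J, hJ⟩ := exists_J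
  have hnr : ∀ p ∈ P6, nr (J p) = p := by
    intro p hp
    obtain ⟨π, hπ, hJp⟩ := hJ p hp
    have h12 : p % 12 = 7 := hp.2
    have h3 : ¬ (3 : ℤ) ∣ nr π := by rw [hπ]; omega
    rw [hJp, nr_ns h3, hπ]
  apply generic_count (A := -1) (B := -1) 3 (by norm_num) 6 (by norm_num) psi6 psi6_QD
    (fun q => if q % 4 = 3 then -1 else 1) (fun q => by
      by_cases h : q % 4 = 3
      · right; simp [h]
      · left; simp [h])
    x3 3 Nat.prime_three x3_prime (x3_zero 3 rfl) (1 / 2) (by norm_num) x3_lower x3_split ei_size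
    P6 (fun p hp => hp.1) J _ _ T6 T6_pos T6_fin B6 _ ε hε
  · intro p hp
    rw [← nr_eq]
    exact hnr p hp
  · intro p hp q hq hqQ hqp
    have hF : Fact q.Prime := ⟨hq⟩
    have hd : ¬ (q : ℤ) ∣ nr (J p) := by
      rw [hnr p hp]
      intro h
      have : q ∣ p := by exact_mod_cast h
      exact hqp ((Nat.prime_dvd_prime_iff_eq hq hp.1).mp this)
    rw [psi6_eq q hqQ _ hd]
    obtain ⟨h1, h2⟩ := psi6_parts q hqQ _ hd
    apply mul_ne_zero
    · intro h; rw [h] at h1; norm_num at h1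
    · intro h; rw [h] at h2; norm_num at h2
  · intro η hη
    obtain ⟨x0, hx0⟩ := AC.cot_approx (1 / 50) (by norm_num) (by norm_num)
    filter_upwards [eventually_ge_atTop x0, ev_small (η / 4) (by positivity), ev_pow,
      AC.tendsto_log_nat.eventually_ge_atTop 1, eventually_ge_atTop 144] with x hx1 hx2 hx3 hx4 hx5
    obtain ⟨hlog, Exc, hE, happ⟩ := hx0 x hx1
    refine ⟨Exc, hE, ?_⟩
    intro p hp hxp hpx hpE hB
    obtain ⟨π, hπ, hJp⟩ := hJ p hp
    have hF : Fact p.Prime := ⟨hp.1⟩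
    have hp12 : p % 12 = 7 := hp.2
    have hp3 : p ≠ 3 := by omega
    have h13 : 13 ≤ p := by nlinarith
    set c : DirichletCharacter ℂ p := (c6 hπ hp3).ringHomComp toC with hc
    have hodd : DirichletCharacter.Odd c := c6_odd hπ hp3 hp12
    have hc1 : c ≠ 1 := by
      intro h
      rw [h] at hodd
      unfold DirichletCharacter.Odd at hodd
      rw [MulChar.one_apply (isUnit_one.neg)] at hodd
      norm_num at hodd
    have h1 := happ p hp.1 hpx hxp hpE c hc1 (Nf x) hx3.2.1 hx3.2.2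
    have h2 := happ p hp.1 hpx hxp hpE c hc1 (Nf x / 3) hx3.1 (le_trans (by
      exact_mod_cast Nat.div_le_self _ _) hx3.2.2)
    obtain ⟨m, hm, hmv⟩ := target6 hπ hp3 hp12 h13 hB
    rw [← hc] at hmv
    have hNp : Nf x < p := Nf_lt (by omega) hxp
    set F := ∑ n ∈ oddTo (p - 1), c (n : ZMod p) * (cw p n : ℂ) with hFd
    set v := c ((3 : ℕ) : ZMod p) with hv
    have hv6 : v ^ 6 = 1 := by
      apply c6_pow hπ hp3 hp12
      rw [Ne, ZMod.natCast_eq_zero_iff]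
      intro hd
      have := Nat.le_of_dvd (by norm_num) hd
      omega
    refine ⟨‖1 - v / 3‖ ^ 2 * (Real.pi ^ 2 / 4 * m), ⟨v, hv6, m, hm, rfl⟩, ?_⟩
    rw [hJp, short6 hπ hp3 hp12 (Nf x) hNp, ← hc, ← hv, ← hmv, ← mul_pow, ← norm_mul]
    have hlogN : ∀ N : ℕ, N ≤ Nf x → Real.log N ≤ Real.log x := by
      intro N hN
      rcases Nat.eq_zero_or_pos N with h0 | h0
      · rw [h0]; simp; linarith
      · apply Real.log_le_log (by exact_mod_cast h0)
        exact_mod_cast (hN.trans (hNp.le.trans hpx))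
    refine le_trans (diff6 F _ _ v (Real.log x) hx4 (QF.norm_char_le c 3) h1 h2 ?_ ?_) (by linarith)
    · refine (norm_short c (Nf x)).trans ?_
      linarith [hlogN (Nf x) le_rfl]
    · refine (norm_short c (Nf x / 3)).trans ?_
      linarith [hlogN (Nf x / 3) (Nat.div_le_self _ _)]

end Pool.Agent.R361.SX
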